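import Pool.Agent.V5helper10.GK.Stm2

/-!
# Project GK, job IRS: irreducibility of the Lie algebra
-/

set_option autoImplicit false

open Module Matrix

namespace Pool.Agent.V5helper7.GK

open Pool.Agent.V5helper10.GK
open Pool.Agent.W544.K3 (K3Type bil app cj)

theorem irr_of {V : Type*} [AddCommGroup V] [Module ℂ V] [FiniteDimensional ℂ V]
    (b : V →ₗ[ℂ] V →ₗ[ℂ] ℂ) (hnd : ∀ m, (∀ v, b v m = 0) → m = 0)
    (h3 : 3 ≤ finrank ℂ V) (M : Submodule ℂ V)
    (hM : ∀ m ∈ M, ∀ u v, b v m • u - b u m • v ∈ M) : M = ⊥ ∨ M = ⊤ := by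
  by_cases h : M = ⊥
  · exact Or.inl h
  right
  obtain ⟨m, hmM, hm0⟩ := Submodule.exists_mem_ne_zero_of_ne_bot h
  have ex : ∀ m : V, m ≠ 0 → ∃ v, b v m ≠ 0 := by
    intro m hm
    by_contra hcon
    push Not at hcon
    exact hm (hnd m hcon)
  have perp : ∀ m ∈ M, m ≠ 0 → ∀ u, b u m = 0 → u ∈ M := by
    intro m hm hm0 u hu
    obtain ⟨v, hv⟩ := ex m hm0
    have h1 := hM m hm u v
    rw [hu, zero_smul, sub_zero] at h1
    exact (Submodule.smul_mem_iff M hv).1 h1
  obtain ⟨v0, hv0⟩ := ex m hm0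
  obtain ⟨m', hm', hm's⟩ : ∃ m', b m' m = 0 ∧ m' ∉ Submodule.span ℂ {m} := by
    by_contra hcon
    push Not at hcon
    have h1 : LinearMap.ker (b.flip m) ≤ Submodule.span ℂ {m} := by
      intro x hx
      rw [LinearMap.mem_ker, LinearMap.flip_apply] at hx
      exact hcon x hx
    have h2 := Submodule.finrank_mono h1
    rw [finrank_span_singleton hm0] at h2
    have h4 := LinearMap.finrank_range_add_finrank_ker (b.flip m)
    have h5 : finrank ℂ (LinearMap.range (b.flip m)) ≤ 1 := by
      have := Submodule.finrank_le (LinearMap.range (b.flip m))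
      rwa [finrank_self] at this
    omega
  have hm'M : m' ∈ M := perp m hmM hm0 m' hm'
  have hm'0 : m' ≠ 0 := by
    rintro rfl
    exact hm's (Submodule.zero_mem _)
  obtain ⟨w, hw1, hw2⟩ : ∃ w, b w m' = 0 ∧ b w m ≠ 0 := by
    by_cases hv : b v0 m' = 0
    · exact ⟨v0, hv, hv0⟩
    · have h1 : m - (b v0 m / b v0 m') • m' ≠ 0 := by
        intro h1
        rw [sub_eq_zero] at h1
        apply hm's
        rw [Submodule.mem_span_singleton]
        have h2 : b v0 m / b v0 m' ≠ 0 := div_ne_zero hv0 hv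
        generalize b v0 m / b v0 m' = c at h1 h2
        refine ⟨c⁻¹, ?_⟩
        rw [h1, smul_smul, inv_mul_cancel₀ h2, one_smul]
      obtain ⟨z, hz⟩ := ex _ h1
      refine ⟨z - (b z m' / b v0 m') • v0, ?_, ?_⟩
      · rw [map_sub, map_smul, LinearMap.sub_apply, LinearMap.smul_apply, smul_eq_mul,
          div_mul_cancel₀ _ hv, sub_self]
      · rw [map_sub, map_smul, LinearMap.sub_apply, LinearMap.smul_apply, smul_eq_mul]
        rw [map_sub, map_smul, smul_eq_mul] at hz
        intro h2
        apply hz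
        rw [← h2]
        field_simp
  rw [Submodule.eq_top_iff']
  intro z
  have h1 : z - (b z m / b w m) • w ∈ M := by
    refine perp m hmM hm0 _ ?_
    rw [map_sub, map_smul, LinearMap.sub_apply, LinearMap.smul_apply, smul_eq_mul,
      div_mul_cancel₀ _ hw2, sub_self]
  have h2 : w ∈ M := perp m' hm'M hm'0 w hw1
  have h3 := M.add_mem h1 (M.smul_mem (b z m / b w m) h2)
  rwa [sub_add_cancel] at h3

theorem app_two (x : Matrix (Fin 2) (Fin 2) ℚ) (v : Fin 2 → ℂ) (i : Fin 2) :
    app x v i = (x i 0 : ℂ) * v 0 + (x i 1 : ℂ) * v 1 := by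
  simp [app, Fin.sum_univ_two]

theorem bil_two (B : Matrix (Fin 2) (Fin 2) ℚ) (u v : Fin 2 → ℂ) :
    bil B u v = u 0 * (B 0 0 : ℂ) * v 0 + u 0 * (B 0 1 : ℂ) * v 1 +
      (u 1 * (B 1 0 : ℂ) * v 0 + u 1 * (B 1 1 : ℂ) * v 1) := by
  simp [bil, Fin.sum_univ_two]

theorem not_two (Y : K3Type 2)
    (hQ : ∀ Q, Y.HodgeEnd Q → ∃ c : ℚ, Q = c • (1 : Matrix (Fin 2) (Fin 2) ℚ)) : False := by
  have hiso := Y.iso
  have hpos := Y.pos
  have hsym := Y.symm 1 0
  rw [bil_two, hsym] at hiso hpos
  set a := Y.ω 0 with ha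
  set c := Y.ω 1 with hc
  have e0 : cj Y.ω 0 = (starRingEnd ℂ) a := rfl
  have e1 : cj Y.ω 1 = (starRingEnd ℂ) c := rfl
  rw [e0, e1] at hpos
  set p : ℚ := Y.B 0 0 with hp
  set q : ℚ := Y.B 0 1 with hq
  set s : ℚ := Y.B 1 1 with hs
  set A : ℂ := p * a + q * c with hA
  set D : ℂ := q * a + s * c with hD
  set a' := (starRingEnd ℂ) a with ha'
  set c' := (starRingEnd ℂ) c with hc'
  have hA' : (starRingEnd ℂ) A = p * a' + q * c' := by
    rw [hA, map_add, map_mul, map_mul]
    simp [ha', hc']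
  have hD' : (starRingEnd ℂ) D = q * a' + s * c' := by
    rw [hD, map_add, map_mul, map_mul]
    simp [ha', hc']
  have h1 : a * A + c * D = 0 := by rw [hA, hD, ← hiso]; ring
  have h2 : a' * A + c' * D ≠ 0 := by
    intro h
    have h3 : a * ↑p * a' + a * ↑q * c' + (c * ↑q * a' + c * ↑s * c') = a' * A + c' * D := by
      rw [hA, hD]; ring
    rw [h3, h] at hpos
    simp at hpos
  have hHE : Y.HodgeEnd (!![q, s; -p, -q]) := by
    have f0 : ∀ v : Fin 2 → ℂ, app (!![q, s; -p, -q] : Matrix (Fin 2) (Fin 2) ℚ) v 0 =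
        q * v 0 + s * v 1 := fun v => by rw [app_two]; simp
    have f1 : ∀ v : Fin 2 → ℂ, app (!![q, s; -p, -q] : Matrix (Fin 2) (Fin 2) ℚ) v 1 =
        -(p * v 0 + q * v 1) := fun v => by rw [app_two]; simp; ring
    constructor
    · -- an eigenvector
      by_cases ha0 : a = 0
      · have hc0 : c ≠ 0 := by
          intro hc0
          apply h2
          rw [ha', hc', ha0, hc0]
          simp
        have hD0 : D = 0 := by
          rw [ha0, zero_mul, zero_add] at h1
          exact (mul_eq_zero.1 h1).resolve_left hc0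
        refine ⟨-A / c, ?_⟩
        funext i
        fin_cases i
        · show app _ Y.ω 0 = (-A / c) * Y.ω 0
          rw [f0, ← ha, ← hc, ← hD, hD0, ha0, mul_zero]
        · show app _ Y.ω 1 = (-A / c) * Y.ω 1
          rw [f1, ← ha, ← hc, ← hA, div_mul_cancel₀ _ hc0]
      · refine ⟨D / a, ?_⟩
        funext i
        fin_cases i
        · show app _ Y.ω 0 = (D / a) * Y.ω 0
          rw [f0, ← ha, ← hc, ← hD, div_mul_cancel₀ _ ha0]
        · show app _ Y.ω 1 = (D / a) * Y.ω 1
          rw [f1, ← ha, ← hc, ← hA]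
          field_simp
          linear_combination (-1 : ℂ) * h1
    · intro v hv1 hv2
      rw [bil_two, hsym, ← ha, ← hc] at hv1
      rw [bil_two, hsym, e0, e1] at hv2
      have g1 : v 0 * A + v 1 * D = 0 := by
        rw [← hv1, hA, hD]; ring
      have g2 : v 0 * (p * a' + q * c') + v 1 * (q * a' + s * c') = 0 := by
        rw [← hv2]; ring
      rw [← hA', ← hD'] at g2
      set A' := (starRingEnd ℂ) A with hAA
      set D' := (starRingEnd ℂ) D with hDD
      have h1' : a' * A' + c' * D' = 0 := by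
        have := congrArg (starRingEnd ℂ) h1
        rwa [map_add, map_mul, map_mul, map_zero] at this
      -- the determinant
      have hdet : A * D' - D * A' ≠ 0 := by
        intro hdet
        have k1 : D' * (a' * A + c' * D) = 0 := by
          linear_combination a' * hdet + D * h1'
        have k2 : A' * (a' * A + c' * D) = 0 := by
          linear_combination (-c') * hdet + A * h1'
        have k3 : D' = 0 := (mul_eq_zero.1 k1).resolve_right h2
        have k4 : A' = 0 := (mul_eq_zero.1 k2).resolve_right h2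
        have k5 : D = 0 := by
          have := congrArg (starRingEnd ℂ) k3
          rwa [hDD, Complex.conj_conj, map_zero] at this
        have k6 : A = 0 := by
          have := congrArg (starRingEnd ℂ) k4
          rwa [hAA, Complex.conj_conj, map_zero] at this
        apply h2
        rw [k5, k6]
        ring
      have v0 : v 0 = 0 := by
        have : v 0 * (A * D' - D * A') = 0 := by
          linear_combination D' * g1 - D * g2
        exact (mul_eq_zero.1 this).resolve_right hdet
      have v1 : v 1 = 0 := by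
        have : v 1 * (A * D' - D * A') = 0 := by
          linear_combination A * g2 - A' * g1
        exact (mul_eq_zero.1 this).resolve_right hdet
      constructor
      · rw [bil_two, f0, f1, v0, v1]; ring
      · rw [bil_two, f0, f1, v0, v1]; ring
  obtain ⟨r, hr⟩ := hQ _ hHE
  have t1 : s = 0 := by
    have := congrFun (congrFun hr 0) 1
    simpa using this
  have t2 : p = 0 := by
    have := congrFun (congrFun hr 1) 0
    simpa using this
  have t3 : q = 0 := by
    have k1 := congrFun (congrFun hr 0) 0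
    have k2 := congrFun (congrFun hr 1) 1
    simp at k1 k2
    linarith
  apply h2
  rw [hA, hD, t1, t2, t3]
  simp

theorem three_le {r : ℕ} (Y : K3Type r)
    (hQ : ∀ Q, Y.HodgeEnd Q → ∃ c : ℚ, Q = c • (1 : Matrix (Fin r) (Fin r) ℚ)) : 3 ≤ r := by
  by_contra hcon
  push Not at hcon
  interval_cases r
  · have := Y.pos
    simp [bil] at this
  · have h1 := Y.iso
    have h2 := Y.pos
    simp only [bil, cj, Finset.univ_unique, Fin.default_eq_zero, Finset.sum_singleton] at h1 h2
    rcases mul_eq_zero.1 h1 with h3 | h3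
    · rw [h3] at h2
      simp at h2
    · rw [h3] at h2
      simp at h2
  · exact not_two Y hQ

theorem det_ne {r : ℕ} (Y : K3Type r) : Y.B.det ≠ 0 := by
  intro h0
  obtain ⟨v, hv, hv0⟩ := Matrix.exists_mulVec_eq_zero_iff.2 h0
  have key : ∀ w : Fin r → ℂ, bil Y.B (fun i => (((v i : ℝ)) : ℂ)) w = 0 := by
    intro w
    unfold bil
    rw [Finset.sum_comm]
    refine Finset.sum_eq_zero fun j _ => ?_
    have h2 : ∑ i, Y.B j i * v i = 0 := congrFun hv0 j
    have h3 : ((∑ i, Y.B j i * v i : ℚ) : ℂ) = 0 := by rw [h2, Rat.cast_zero]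
    push_cast at h3
    rw [← Finset.sum_mul]
    have h4 : ∑ i, (((v i : ℝ)) : ℂ) * ((Y.B i j : ℚ) : ℂ) = 0 := by
      rw [← h3]
      refine Finset.sum_congr rfl fun i _ => ?_
      rw [Y.symm i j]
      push_cast
      ring
    rw [h4, zero_mul]
  have hne : (fun i => (v i : ℝ)) ≠ 0 := by
    intro h
    apply hv
    funext i
    have h5 : (v i : ℝ) = 0 := congrFun h i
    show v i = 0
    exact_mod_cast h5
  have h1 := Y.neg (fun i => (v i : ℝ)) hne (key Y.ω)
  rw [key] at h1
  simp at h1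

theorem t_IRS : S_IRS := by
  intro r Y hQ hinv M hM
  have h3 := three_le Y hQ
  have hdet : (BC Y.B).det ≠ 0 := by
    have h1 : (BC Y.B).det = ((Y.B.det : ℚ) : ℂ) := by
      have := (Rat.castHom ℂ).map_det Y.B
      rw [show (Rat.castHom ℂ).mapMatrix Y.B = BC Y.B from rfl] at this
      exact this.symm
    rw [h1]
    exact_mod_cast det_ne Y
  have hBs : ∀ i j, BC Y.B i j = BC Y.B j i := by
    intro i j
    show ((Y.B i j : ℚ) : ℂ) = ((Y.B j i : ℚ) : ℂ)
    rw [Y.symm i j]
  set b : (Fin r → ℂ) →ₗ[ℂ] (Fin r → ℂ) →ₗ[ℂ] ℂ := Matrix.toLinearMap₂' ℂ (BC Y.B) with hb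
  have hbv : ∀ v w, b v w = v ⬝ᵥ (BC Y.B *ᵥ w) := fun v w => Matrix.toLinearMap₂'_apply' _ _ _
  have hbs : ∀ v w, (BC Y.B *ᵥ v) ⬝ᵥ w = b v w := by
    intro v w
    rw [hbv]
    simp only [dotProduct, Matrix.mulVec, Finset.sum_mul, Finset.mul_sum]
    rw [Finset.sum_comm]
    refine Finset.sum_congr rfl fun i _ => Finset.sum_congr rfl fun j _ => ?_
    rw [hBs j i]
    ring
  have key : ∀ p q z : Fin r → ℂ, Matrix.vecMulVec p q *ᵥ z = (q ⬝ᵥ z) • p := by
    intro p q z
    funext i
    simp only [Matrix.mulVec, Matrix.vecMulVec_apply, dotProduct, Pi.smul_apply, smul_eq_mul,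
      Finset.sum_mul]
    exact Finset.sum_congr rfl fun _ _ => by ring
  have hwo : ∀ u v z, wo Y.B u v *ᵥ z = b v z • u - b u z • v := by
    intro u v z
    rw [wo, Matrix.sub_mulVec, key, key, hbs, hbs]
  have hsing : ∀ i j : Fin r, ∀ z ∈ M,
      b (Pi.single j 1) z • (Pi.single i 1 : Fin r → ℂ) -
        b (Pi.single i 1) z • (Pi.single j 1 : Fin r → ℂ) ∈ M := by
    intro i j z hz
    rw [← hwo]
    set x : Matrix (Fin r) (Fin r) ℚ := Matrix.of fun a c =>
      (if a = i then Y.B c j else 0) - (if a = j then Y.B c i else 0) with hx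
    have hxm : x.map (fun q : ℚ => (q : ℂ)) = wo Y.B (Pi.single i 1) (Pi.single j 1) := by
      funext a c
      simp only [hx, wo, Matrix.map_apply, Matrix.of_apply, Matrix.sub_apply,
        Matrix.vecMulVec_apply, Matrix.mulVec_single_one, Matrix.col_apply, BC, Pi.single_apply]
      push_cast
      split_ifs <;> simp
    have hxl : x ∈ lie Y.D := by
      intro m t ht I
      have h := hinv m t ht (Pi.single i 1) (Pi.single j 1) I
      rw [← hxm] at h
      simp only [Matrix.map_apply] at h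
      exact_mod_cast h
    have := hM x hxl z hz
    rwa [hxm] at this
  have hspan : Submodule.span ℂ (Set.range fun i : Fin r => (Pi.single i 1 : Fin r → ℂ)) = ⊤ := by
    have := (Pi.basisFun ℂ (Fin r)).span_eq
    rwa [show (⇑(Pi.basisFun ℂ (Fin r)) : Fin r → Fin r → ℂ) =
      fun i => (Pi.single i 1 : Fin r → ℂ) from funext fun i => Pi.basisFun_apply ℂ (Fin r) i] at this
  have hone : ∀ i : Fin r, ∀ z ∈ M, ∀ v,
      b v z • (Pi.single i 1 : Fin r → ℂ) - b (Pi.single i 1) z • v ∈ M := by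
    intro i z hz v
    let f : (Fin r → ℂ) →ₗ[ℂ] (Fin r → ℂ) :=
      (b.flip z).smulRight (Pi.single i 1 : Fin r → ℂ) - (b (Pi.single i 1) z) • LinearMap.id
    have hle : (⊤ : Submodule ℂ (Fin r → ℂ)) ≤ M.comap f := by
      rw [← hspan, Submodule.span_le]
      rintro _ ⟨j, rfl⟩
      exact hsing i j z hz
    exact hle (Submodule.mem_top (x := v))
  have hall : ∀ z ∈ M, ∀ u v, b v z • u - b u z • v ∈ M := by
    intro z hz u v
    let f : (Fin r → ℂ) →ₗ[ℂ] (Fin r → ℂ) :=
      (b v z) • LinearMap.id - (b.flip z).smulRight v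
    have hle : (⊤ : Submodule ℂ (Fin r → ℂ)) ≤ M.comap f := by
      rw [← hspan, Submodule.span_le]
      rintro _ ⟨i, rfl⟩
      exact hone i z hz v
    exact hle (Submodule.mem_top (x := u))
  refine irr_of b ?_ ?_ M hall
  · intro m hm
    have h1 : BC Y.B *ᵥ m = 0 := by
      funext i
      have := hm (Pi.single i 1)
      rw [hbv, single_one_dotProduct] at this
      exact this
    by_contra hm0
    exact hdet (Matrix.exists_mulVec_eq_zero_iff.1 ⟨m, hm0, h1⟩)
  · rw [Module.finrank_fin_fun]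
    exact h3

end Pool.Agent.V5helper7.GK
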